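import Mathlib
import Pool.Agent.Helper65.Inj.JDefs

/-! J part of MP_25cd9d_co: heavy points after a rotation were heavy before; bad tokens move. -/

set_option autoImplicit false

namespace Pool.Agent.Helper69.Inj

open Classical Pool.Agent.Helper65.Inj Pool.Agent.Helper65.Inj.Cub

section

variable {A B : Type} {H : Cub A B}

theorem lp_symm {j k : A} (h : H.LP j k) : H.LP k j := fun D hD => h D ⟨hD.2, hD.1⟩

theorem P_unique {J : Finset A} {r : B} {x y : A} (hx : H.P J r x) (hy : H.P J r y) : x = y :=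
  hy.2.2 _ hx.1 hx.2.1

variable [Fintype A] [Fintype B]

/-- the pair of an attached point is determined -/
theorem xd_pair {J : Finset A} (hO : H.Opt J) {u m1 m2 j k : A} {t d1 d2 T b c : B}
    (h : XD H J u t d1 d2 m1 m2) (h' : XD H J u T b c j k) :
    T = t ∧ ((b = d1 ∧ c = d2 ∧ j = m1 ∧ k = m2) ∨ (b = d2 ∧ c = d1 ∧ j = m2 ∧ k = m1)) := by
  have e0 : T = t := F1 hO h'.vT h.vT h'.hT h.hT
  subst e0
  refine ⟨rfl, ?_⟩
  have e1 := h.all h'.vb
  have e2 := h.all h'.vc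
  have e3 := h'.Tb
  have e4 := h'.Tc
  have e5 := h'.bc
  rcases e1 with e1 | e1 | e1
  · exact absurd e1.symm e3
  · rcases e2 with e2 | e2 | e2
    · exact absurd e2.symm e4
    · exact absurd (e1.trans e2.symm) e5
    · left
      subst e1 e2
      exact ⟨rfl, rfl, P_unique h'.hj h.hj, P_unique h'.hk h.hk⟩
  · rcases e2 with e2 | e2 | e2
    · exact absurd e2.symm e4
    · right
      subst e1 e2
      exact ⟨rfl, rfl, P_unique h'.hj h.hk, P_unique h'.hk h.hj⟩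
    · exact absurd (e1.trans e2.symm) e5

/-- the pair of a long attached point is long -/
theorem lg_pair {J : Finset A} (hO : H.Opt J) {u m1 m2 : A} {t d1 d2 : B}
    (h : XD H J u t d1 d2 m1 m2) (hL : H.Lg J u) : H.LP m1 m2 := by
  obtain ⟨T, b, c, j, k, h', hl⟩ := hL
  obtain ⟨_, ⟨_, _, e1, e2⟩ | ⟨_, _, e1, e2⟩⟩ := xd_pair hO h h'
  · subst e1 e2
    exact hl
  · subst e1 e2
    exact lp_symm hl

/-- case A: `v` is on the first block of `u`, and `w = j` -/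
theorem caseA (hEnd : ST_End) {J J' : Finset A} {v w j k : A} {T b c : B}
    (hm : ∀ r, r ∈ J' ↔ (r ∈ J ∧ r ≠ w ∨ r = v)) (hO : H.Opt J) (hO' : H.Opt J') (hw : w ∈ J) (hwv : w ≠ v)
    (hx : XD H J v T b c j k) (hwj : w = j) {u m1 m2 : A} {t d1 d2 : B} (hU : H.U J t) (hut : u ∈ H.pt t)
    (h : XD H J' u t d1 d2 m1 m2) (hv : H.Hv J' u) (huv : u ≠ v) (huJ : u ∉ J) (hvt : v ∉ H.pt t)
    (hwt : w ∉ H.pt t) (h1 : v ∈ H.pt d1) (hd : H.P J d1 w) :
    H.Hv J u ∧ (H.Lg J' u → H.Lg J u) := by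
  have hvJ' : v ∈ J' := (hm v).2 (Or.inr rfl)
  have hwJ' : w ∉ J' := by
    rw [hm]
    rintro (⟨_, h2⟩ | h2)
    · exact h2 rfl
    · exact hwv h2
  have em : m1 = v := (h.hj.2.2 v h1 hvJ').symm
  have hv2 : v ∉ H.pt d2 := by
    intro h2
    have e2 : m2 = v := (h.hk.2.2 v h2 hvJ').symm
    exact h.ne hO' (em.trans e2.symm)
  have hwu : w ≠ u := by
    rintro rfl
    exact hwt hut
  have hw2 : w ∉ H.pt d2 := by
    intro h2
    exact h.bc (hv.2 w hwJ' hwu d1 d2 h.vb h.vc hd.1 h2)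
  have hP2 : H.P J d2 m2 := by
    have h3 : m2 ≠ v := fun e => hv2 (e ▸ h.hk.1)
    have h4 : m2 ∈ J := by
      rcases (hm m2).1 h.hk.2.1 with h5 | h5
      · exact h5.1
      · exact absurd h5 h3
    refine ⟨h.hk.1, h4, fun r hr hrJ => h.hk.2.2 r hr ((hm r).2 (Or.inl ⟨hrJ, ?_⟩))⟩
    rintro rfl
    exact hw2 hr
  have hxu : XD H J u t d1 d2 w m2 := ⟨hut, h.vb, h.vc, h.bc, hU, hd, hP2⟩
  subst hwj
  have ek : m2 = k := hEnd A B H J u v w m2 k t d1 d2 T b c hO hxu hx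
  refine ⟨⟨⟨t, d1, d2, w, m2, hxu⟩, ?_⟩, ?_⟩
  · intro w' hw' hwu' cc cc' hc hc' hwc hwc'
    by_cases hJ' : w' ∈ J'
    · have e1 : w' = v := by
        rcases (hm w').1 hJ' with h5 | h5
        · exact absurd h5.1 hw'
        · exact h5
      subst e1
      have e2 : ∀ r, u ∈ H.pt r → w' ∈ H.pt r → r = d1 := by
        intro r hr hr'
        rcases h.all hr with e | e | e
        · subst e; exact absurd hr' hvt
        · exact e
        · subst e; exact absurd hr' hv2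
      rw [e2 cc hc hwc, e2 cc' hc' hwc']
    · exact hv.2 w' hJ' hwu' cc cc' hc hc' hwc hwc'
  · intro hL
    exfalso
    have h6 := lg_pair hO' h hL
    rw [em, ek] at h6
    exact h6 c ⟨hx.vc, hx.hk.1⟩

/-- case B: `w` is on the first block of `u`, `v` is not on the blocks of `u` -/
theorem caseB (hEnd : ST_End) (hU1 : ST_U1) {J J' : Finset A} {v w k1 k2 : A} {N c1 c2 : B}
    (hm : ∀ r, r ∈ J' ↔ (r ∈ J ∧ r ≠ w ∨ r = v)) (hO : H.Opt J) (hO' : H.Opt J') (hw : w ∈ J)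
    (hy : XD H J' w N c1 c2 k1 k2) {u m2 : A} {t d1 d2 : B}
    (h : XD H J' u t d1 d2 k1 m2) (hv : H.Hv J' u) (huw : u ≠ w) (h1 : v ∉ H.pt d1) (h2 : v ∉ H.pt d2)
    : False := by
  have e2 : m2 = k2 := hEnd A B H J' u w k1 m2 k2 t d1 d2 N c1 c2 hO' h hy
  subst e2
  have h3 := hU1 A B H J' u w k1 m2 t d1 d2 N c1 c2 hO' h hy huw hv
  unfold Cub.LP at h3
  push Not at h3
  obtain ⟨D, hD1, hD2⟩ := h3
  have hne : k1 ≠ m2 := h.ne hO'
  have hk1v : k1 ≠ v := fun e => h1 (e ▸ h.hj.1)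
  have hk2v : m2 ≠ v := fun e => h2 (e ▸ h.hk.1)
  have hk1J : k1 ∈ J := by
    rcases (hm k1).1 h.hj.2.1 with h5 | h5
    · exact h5.1
    · exact absurd h5 hk1v
  have hk2J : m2 ∈ J := by
    rcases (hm m2).1 h.hk.2.1 with h5 | h5
    · exact h5.1
    · exact absurd h5 hk2v
  have hwJ' : w ∉ J' := hy.nJ
  have hk1w : k1 ≠ w := fun e => hwJ' (e ▸ h.hj.2.1)
  have hk2w : m2 ≠ w := fun e => hwJ' (e ▸ h.hk.2.1)
  have hQ1 : H.Q J c1 w k1 := by
    refine ⟨hk1w.symm, hy.vb, hy.hj.1, hw, hk1J, fun r hr hrJ => ?_⟩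
    by_cases hrw : r = w
    · exact Or.inl hrw
    · exact Or.inr (hy.hj.2.2 r hr ((hm r).2 (Or.inl ⟨hrJ, hrw⟩)))
  have hQ2 : H.Q J c2 w m2 := by
    refine ⟨hk2w.symm, hy.vc, hy.hk.1, hw, hk2J, fun r hr hrJ => ?_⟩
    by_cases hrw : r = w
    · exact Or.inl hrw
    · exact Or.inr (hy.hk.2.2 r hr ((hm r).2 (Or.inl ⟨hrJ, hrw⟩)))
  have hQ' : H.Q J' D k1 m2 := by
    rcases tr_cases_mem hD1 h.hj.2.1 with h5 | ⟨x, h5⟩ | h5
    · exact absurd (h5.2.2 m2 hD2 h.hk.2.1).symm hne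
    · rcases h5.2.2.2.2.2 m2 hD2 h.hk.2.1 with e | e
      · exact absurd e.symm hne
      · subst e; exact h5
    · exact absurd h5 (h.nt1 hO' D (mem_bl.2 hD1))
  have hQD : H.Q J D k1 m2 := by
    refine ⟨hne, hD1, hD2, hk1J, hk2J, fun r hr hrJ => ?_⟩
    by_cases hrw : r = w
    · exfalso
      subst hrw
      -- then `D` is the block `c1`, which contains `m2`
      have hTr : H.Tr J D := by
        intro x hx
        rcases pt_cases hD1 hD2 hr hne hk1w hk2w hx with e | e | e <;> subst e <;> assumption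
      exact hQ1.nt hO.1.2 D (mem_bl.2 hr) hTr
    · exact hQ'.2.2.2.2.2 r hr ((hm r).2 (Or.inl ⟨hrJ, hrw⟩))
  obtain ⟨⟨s, hs⟩, _⟩ := hO.1
  have a1 := hs _ _ _ hQ1
  have a2 := hs _ _ _ hQ2
  have a3 := hs _ _ _ hQD
  revert a1 a2 a3
  cases s w <;> cases s k1 <;> cases s m2 <;> simp

/-- case C: `v`, `w` are not on the blocks of `u` -/
theorem caseC {J J' : Finset A} {v w : A}
    (hm : ∀ r, r ∈ J' ↔ (r ∈ J ∧ r ≠ w ∨ r = v)) (hO' : H.Opt J')
    {u m1 m2 : A} {t d1 d2 : B} (hU : H.U J t) (hut : u ∈ H.pt t)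
    (h : XD H J' u t d1 d2 m1 m2) (hv : H.Hv J' u) (hvt : v ∉ H.pt t)
    (h1 : v ∉ H.pt d1) (h2 : v ∉ H.pt d2) (h3 : w ∉ H.pt d1) (h4 : w ∉ H.pt d2) :
    H.Hv J u ∧ (H.Lg J' u → H.Lg J u) := by
  have key : ∀ {d : B} {m : A}, H.P J' d m → v ∉ H.pt d → w ∉ H.pt d → H.P J d m := by
    intro d m hP hvd hwd
    have h5 : m ∈ J := by
      rcases (hm m).1 hP.2.1 with h5 | h5
      · exact h5.1
      · exact absurd (h5 ▸ hP.1) hvd
    refine ⟨hP.1, h5, fun r hr hrJ => hP.2.2 r hr ((hm r).2 (Or.inl ⟨hrJ, ?_⟩))⟩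
    rintro rfl
    exact hwd hr
  have hxu : XD H J u t d1 d2 m1 m2 := ⟨hut, h.vb, h.vc, h.bc, hU, key h.hj h1 h3, key h.hk h2 h4⟩
  refine ⟨⟨⟨t, d1, d2, m1, m2, hxu⟩, ?_⟩, ?_⟩
  · intro w' hw' hwu' cc cc' hc hc' hwc hwc'
    by_cases hJ' : w' ∈ J'
    · exfalso
      have e1 : w' = v := by
        rcases (hm w').1 hJ' with h5 | h5
        · exact absurd h5.1 hw'
        · exact h5
      subst e1
      rcases h.all hc with e | e | e <;> subst e
      · exact hvt hwc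
      · exact h1 hwc
      · exact h2 hwc
    · exact hv.2 w' hJ' hwu' cc cc' hc hc' hwc hwc'
  · intro hL
    exact ⟨t, d1, d2, m1, m2, hxu, lg_pair hO' h hL⟩

end

theorem st_M (hEnd : ST_End) (hU1 : ST_U1) : ST_M := by
  intro A B _ _ H J v w j k k1 k2 T b c N c1 c2 hO hO' hw hx hy u t hv hut hUt htN
  have hvJ : v ∉ J := hx.nJ
  have hwv : w ≠ v := fun e => hvJ (e ▸ hw)
  have hm : ∀ r, r ∈ (J \ {w}) ∪ {v} ↔ (r ∈ J ∧ r ≠ w ∨ r = v) := by
    intro r
    simp only [Finset.mem_union, Finset.mem_sdiff, Finset.mem_singleton]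
  generalize hJ' : (J \ {w}) ∪ {v} = J' at *
  have hvJ' : v ∈ J' := (hm v).2 (Or.inr rfl)
  have hvt : v ∉ H.pt t := fun h => hUt v h hvJ'
  have hwt : w ∉ H.pt t := by
    intro h
    rcases hy.all h with e | e | e
    · exact htN e
    · subst e; exact hUt.not_P hy.hj
    · subst e; exact hUt.not_P hy.hk
  have hU : H.U J t := by
    intro r hr hrJ
    refine hUt r hr ((hm r).2 (Or.inl ⟨hrJ, ?_⟩))
    rintro rfl
    exact hwt hr
  have htT : t ≠ T := by
    rintro rfl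
    exact hvt hx.vT
  have huw : u ≠ w := by rintro rfl; exact hwt hut
  have huv : u ≠ v := by rintro rfl; exact hvt hut
  have huJ : u ∉ J := hU u hut
  refine ⟨hU, htT, ?_⟩
  obtain ⟨T0, d1, d2, m1, m2, h⟩ := hv.1
  have e0 : T0 = t := F1 hO' h.vT hut h.hT hUt
  subst e0
  -- the first case
  have cA : ∀ {d1 d2 : B} {m1 m2 : A}, XD H J' u T0 d1 d2 m1 m2 → v ∈ H.pt d1 →
      H.Hv J u ∧ (H.Lg J' u → H.Lg J u) := by
    intro d1 d2 m1 m2 h h1
    have em : m1 = v := (h.hj.2.2 v h1 hvJ').symm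
    have hPw : H.P J d1 w := by
      have hr : ∀ r ∈ H.pt d1, r ∈ J → r = w := by
        intro r hr hrJ
        by_contra hrw
        have e1 := h.hj.2.2 r hr ((hm r).2 (Or.inl ⟨hrJ, hrw⟩))
        rw [em] at e1
        exact hvJ (e1 ▸ hrJ)
      have hwd : w ∈ H.pt d1 := by
        by_contra hwd
        have hUd : H.U J d1 := fun r hr' hrJ => hwd (hr r hr' hrJ ▸ hr')
        exact h.Tb (F1 hO hut h.vb hU hUd)
      exact ⟨hwd, hw, hr⟩
    rcases hx.all h1 with e | e | e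
    · subst e; exact absurd hPw hx.hT.not_P
    · subst e
      exact caseA hEnd hm hO hO' hw hwv hx (P_unique hPw hx.hj) hU hut h hv huv huJ hvt hwt h1 hPw
    · subst e
      exact caseA hEnd hm hO hO' hw hwv hx.symm (P_unique hPw hx.hk) hU hut h hv huv huJ hvt hwt h1 hPw
  by_cases h1 : v ∈ H.pt d1
  · exact cA h h1
  by_cases h2 : v ∈ H.pt d2
  · exact cA h.symm h2
  -- the second case
  have cB : ∀ {d1 d2 : B} {m1 m2 : A}, XD H J' u T0 d1 d2 m1 m2 → v ∉ H.pt d1 → v ∉ H.pt d2 →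
      w ∈ H.pt d1 → False := by
    intro d1 d2 m1 m2 h h1 h2 hw1
    rcases hy.all hw1 with e | e | e
    · subst e; exact hy.hT.not_P h.hj
    · subst e
      have e1 := P_unique h.hj hy.hj
      subst e1
      exact caseB hEnd hU1 hm hO hO' hw hy h hv huw h1 h2
    · subst e
      have e1 := P_unique h.hj hy.hk
      subst e1
      exact caseB hEnd hU1 hm hO hO' hw hy.symm h hv huw h1 h2
  have h3 : w ∉ H.pt d1 := fun h3 => cB h h1 h2 h3
  have h4 : w ∉ H.pt d2 := fun h4 => cB h.symm h2 h1 h4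
  exact caseC hm hO' hU hut h hv hvt h1 h2 h3 h4

theorem st_B (hM : ST_M) : ST_B := by
  intro A B _ _ H J v w j k k1 k2 T b c N c1 c2 hF hB hO' hw hx hy
  have key : ∀ t, H.Bad ((J \ {w}) ∪ {v}) t → t ≠ N → H.Bad J t ∧ t ≠ T := by
    rintro t ⟨hU, u, u', hu, hu', hne, hv, hv', hL⟩ htN
    obtain ⟨a1, a2, a3, a4⟩ := hM A B H J v w j k k1 k2 T b c N c1 c2 hF.1 hO' hw hx hy u t hv hu hU htN
    obtain ⟨_, _, b3, _⟩ := hM A B H J v w j k k1 k2 T b c N c1 c2 hF.1 hO' hw hx hy u' t hv' hu' hU htN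
    exact ⟨⟨a1, u, u', hu, hu', hne, a3, b3, a4 hL⟩, a2⟩
  have h1 := hF.2 _ hO'
  have hTm : T ∈ Finset.univ.filter (fun b => H.Bad J b) := by
    rw [Finset.mem_filter]
    exact ⟨Finset.mem_univ _, hB⟩
  have h2 : ((Finset.univ.filter (fun b => H.Bad J b)).erase T).card + 1 = H.nB J :=
    Finset.card_erase_add_one hTm
  have hN : H.Bad ((J \ {w}) ∪ {v}) N := by
    by_contra hN
    have h3 : Finset.univ.filter (fun b => H.Bad ((J \ {w}) ∪ {v}) b) ⊆
        (Finset.univ.filter (fun b => H.Bad J b)).erase T := by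
      intro t ht
      rw [Finset.mem_filter] at ht
      have h4 := key t ht.2 (by rintro rfl; exact hN ht.2)
      rw [Finset.mem_erase, Finset.mem_filter]
      exact ⟨h4.2, Finset.mem_univ _, h4.1⟩
    have h4 := Finset.card_le_card h3
    have h5 : H.nB ((J \ {w}) ∪ {v}) ≤ ((Finset.univ.filter (fun b => H.Bad J b)).erase T).card := h4
    omega
  refine ⟨⟨hO', fun J'' hJ'' => ?_⟩, hN⟩
  have h3 : Finset.univ.filter (fun b => H.Bad ((J \ {w}) ∪ {v}) b) ⊆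
      insert N ((Finset.univ.filter (fun b => H.Bad J b)).erase T) := by
    intro t ht
    rw [Finset.mem_filter] at ht
    rw [Finset.mem_insert]
    by_cases htN : t = N
    · exact Or.inl htN
    · right
      have h4 := key t ht.2 htN
      rw [Finset.mem_erase, Finset.mem_filter]
      exact ⟨h4.2, Finset.mem_univ _, h4.1⟩
  have h4 := (Finset.card_le_card h3).trans (Finset.card_insert_le _ _)
  have h5 : H.nB ((J \ {w}) ∪ {v}) ≤ ((Finset.univ.filter (fun b => H.Bad J b)).erase T).card + 1 := h4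
  have h6 := hF.2 _ hJ''
  omega

end Pool.Agent.Helper69.Inj
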