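import Mathlib
import Pool.Agent.Helper65.Inj.Defs

/-! Row R5 of the injective edge colouring project: the R-lemma from its parts. -/

set_option autoImplicit false

namespace Pool.Agent.Helper69.InjR

open Classical Finset Pool.Agent.Helper65.Inj

variable {A B : Type} {S : RS A B}

theorem adj_symm {u v : A} (h : S.adj u v) : S.adj v u := by
  obtain ⟨h1, b, h2, h3, h4⟩ := h
  exact ⟨h1.symm, b, h3, h2, fun h => h4 ⟨h.2, h.1⟩⟩

theorem mem_pt {v : A} {b : B} : v ∈ S.pt b ↔ v ∈ S.R ∧ b ∈ S.bl v := by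
  unfold RS.pt; rw [mem_filter]

theorem adj_of {u v : A} {b : B} (h : u ≠ v) (hu : u ∈ S.pt b) (hv : v ∈ S.pt b) (hd : ¬ S.drp u b) : S.adj u v :=
  ⟨h, b, hu, hv, fun h => hd h.1⟩

theorem two (hS : S.Cls) {v : A} {T b : B} (hT : S.Tok T) (hv : v ∈ S.pt T) (hb : v ∈ S.pt b) (h : b ≠ T) :
    ¬ S.Tok b ∧ (S.pt b).card ≤ 2 := by
  have h1 : ¬ S.Tok b := fun h2 => h (hS.tokd v b T hb hv h2 hT)
  refine ⟨h1, ?_⟩
  have h2 := hS.pt3 b
  have h3 : (S.pt b).card ≠ 3 := h1
  omega

theorem pt_two {b : B} {u v : A} (h : (S.pt b).card ≤ 2) (hu : u ∈ S.pt b) (hv : v ∈ S.pt b) (huv : u ≠ v) :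
    S.pt b = {u, v} := by
  symm
  refine eq_of_subset_of_card_le ?_ ?_
  · intro w hw
    rw [mem_insert, mem_singleton] at hw
    rcases hw with rfl | rfl
    · exact hu
    · exact hv
  · rw [card_pair huv]; exact h

theorem third_el {X : Type} {s : Finset X} (h : s.card = 3) {a b : X} (ha : a ∈ s) (hb : b ∈ s) (hab : a ≠ b) :
    ∃ c, c ≠ a ∧ c ≠ b ∧ s = {a, b, c} := by
  have h1 : (s \ {a, b}).card = 1 := by
    rw [card_sdiff_of_subset, h, card_pair hab]
    intro w hw
    rw [mem_insert, mem_singleton] at hw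
    rcases hw with rfl | rfl
    · exact ha
    · exact hb
  obtain ⟨c, hc⟩ := card_eq_one.1 h1
  have h2 : c ∈ s \ {a, b} := by rw [hc]; exact mem_singleton_self c
  rw [mem_sdiff, mem_insert, mem_singleton, not_or] at h2
  refine ⟨c, h2.2.1, h2.2.2, ?_⟩
  ext w
  rw [mem_insert, mem_insert, mem_singleton]
  constructor
  · intro hw
    by_cases h3 : w = a
    · exact Or.inl h3
    by_cases h4 : w = b
    · exact Or.inr (Or.inl h4)
    right; right
    have h5 : w ∈ s \ {a, b} := by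
      rw [mem_sdiff, mem_insert, mem_singleton, not_or]
      exact ⟨hw, h3, h4⟩
    rw [hc] at h5
    exact mem_singleton.1 h5
  · rintro (rfl | rfl | rfl)
    · exact ha
    · exact hb
    · exact h2.1

theorem split_el {X : Type} {s : Finset X} (h : s.card = 3) {a : X} (ha : a ∈ s) :
    ∃ b c, s = {a, b, c} := by
  have h1 : (s.erase a).card = 2 := by rw [card_erase_of_mem ha, h]
  obtain ⟨b, c, _, hbc⟩ := card_eq_two.1 h1
  refine ⟨b, c, ?_⟩
  rw [← insert_erase ha, hbc]

/-- the other blocks of a point of the token -/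
theorem third (hS : S.Cls) {x y z o : A} {T : B} (hT : S.Tok T) (hpt : S.pt T = {x, y, z}) (xy : x ≠ y) (xz : x ≠ z)
    (yz : y ≠ z) (hD : ∀ u ∈ S.pt T, u ∉ S.D) (h3 : ∀ u ∈ S.pt T, u ≠ x → S.deg u ≤ 3) (h4 : 3 < S.deg x)
    (hox : o ≠ x) (hyo : S.adj y o) (hzo : S.adj z o) :
    ∃ be be', S.bl y = {T, be, be'} ∧ S.pt be = {y, o} ∧ (S.pt be' = {y} ∨ S.pt be' = {y, o}) ∧ be ≠ T ∧
      be' ≠ T ∧ be' ≠ be := by
  have hyT : y ∈ S.pt T := by rw [hpt]; simp
  have hzT : z ∈ S.pt T := by rw [hpt]; simp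
  have hxT : x ∈ S.pt T := by rw [hpt]; simp
  have hoy : o ≠ y := hyo.1.symm
  have hoz : o ≠ z := hzo.1.symm
  have hoT : o ∉ S.pt T := by
    rw [hpt]; simp only [mem_insert, mem_singleton, not_or]; exact ⟨hox, hoy, hoz⟩
  obtain ⟨_, be, hybe, hobe, _⟩ := id hyo
  have hbT : be ≠ T := by
    rintro rfl
    exact hoT hobe
  have hbe2 := two hS hT hyT hybe hbT
  have hbe := pt_two hbe2.2 hybe hobe hoy.symm
  obtain ⟨be', hn1, hn2, hbl⟩ := third_el (hS.bl3 y (mem_pt.1 hyT).1) (mem_pt.1 hyT).2 (mem_pt.1 hybe).2 hbT.symm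
  have hybe' : y ∈ S.pt be' := mem_pt.2 ⟨(mem_pt.1 hyT).1, by rw [hbl]; simp⟩
  have hbe'2 := two hS hT hyT hybe' hn1
  refine ⟨be, be', hbl, hbe, ?_, hbT, hn1, hn2⟩
  by_cases hw : ∃ w ∈ S.pt be', w ≠ y
  · obtain ⟨w, hw1, hw2⟩ := hw
    have hpt' := pt_two hbe'2.2 hybe' hw1 hw2.symm
    have hyw : S.adj y w := adj_of hw2.symm hybe' hw1 fun h => hbe'2.1 h.2
    have hyx : S.adj y x := adj_of xy.symm hyT hxT fun h => hD y hyT h.1
    have hyz : S.adj y z := adj_of yz hyT hzT fun h => hD y hyT h.1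
    by_cases hwo : w = o
    · right; rw [hpt', hwo]
    exfalso
    by_cases hwz : w = z
    · rw [hwz] at hw1
      have := (hS.e2 T hT hD y hyT z hzT yz ⟨be', hn1, hybe', hw1⟩ o hoT hyo hzo x hxT xy xz).1
      omega
    by_cases hwx : w = x
    · rw [hwx] at hw1
      obtain ⟨b3, k1, k2, hblx⟩ := third_el (hS.bl3 x (mem_pt.1 hxT).1) (mem_pt.1 hxT).2 (mem_pt.1 hw1).2 hn1.symm
      have hxb3 : x ∈ S.pt b3 := mem_pt.2 ⟨(mem_pt.1 hxT).1, by rw [hblx]; simp⟩
      have hb32 := (two hS hT hxT hxb3 k1).2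
      have hsub : S.R.filter (fun w => S.adj x w) ⊆ {y, z} ∪ (S.pt b3).erase x := by
        intro w' hw'
        rw [mem_filter] at hw'
        obtain ⟨_, hne, b, hxb, hwb, _⟩ := hw'
        rw [mem_union, mem_erase, mem_insert, mem_singleton]
        have hb : b ∈ S.bl x := (mem_pt.1 hxb).2
        rw [hblx, mem_insert, mem_insert, mem_singleton] at hb
        rcases hb with rfl | rfl | rfl
        · rw [hpt, mem_insert, mem_insert, mem_singleton] at hwb
          rcases hwb with h | h | h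
          · exact absurd h.symm hne
          · exact Or.inl (Or.inl h)
          · exact Or.inl (Or.inr h)
        · rw [hpt', hwx, mem_insert, mem_singleton] at hwb
          rcases hwb with h | h
          · exact Or.inl (Or.inl h)
          · exact absurd h.symm hne
        · exact Or.inr ⟨hne.symm, hwb⟩
      have hc := card_le_card hsub
      have hc2 : ({y, z} ∪ (S.pt b3).erase x).card ≤ 3 := by
        refine (card_union_le _ _).trans ?_
        rw [card_pair yz, card_erase_of_mem hxb3]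
        omega
      have : S.deg x ≤ 3 := hc.trans hc2
      omega
    have hsub : ({x, z, o, w} : Finset A) ⊆ S.R.filter (fun w => S.adj y w) := by
      intro v hv
      simp only [mem_insert, mem_singleton] at hv
      rw [mem_filter]
      rcases hv with rfl | rfl | rfl | rfl
      · exact ⟨(mem_pt.1 hxT).1, hyx⟩
      · exact ⟨(mem_pt.1 hzT).1, hyz⟩
      · exact ⟨(mem_pt.1 hobe).1, hyo⟩
      · exact ⟨(mem_pt.1 hw1).1, hyw⟩
    have hc := card_le_card hsub
    have hc4 : ({x, z, o, w} : Finset A).card = 4 := by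
      rw [card_insert_of_notMem, card_insert_of_notMem, card_pair (Ne.symm hwo)]
      · simp only [mem_insert, mem_singleton, not_or]
        exact ⟨hoz.symm, fun h => hwz h.symm⟩
      · simp only [mem_insert, mem_singleton, not_or]
        exact ⟨xz, hox.symm, fun h => hwx h.symm⟩
    have h5 : S.deg y ≤ 3 := h3 y hyT xy.symm
    have h6 : 4 ≤ S.deg y := by rw [← hc4]; exact hc
    omega
  · left
    ext w
    rw [mem_singleton]
    constructor
    · intro h
      by_contra hne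
      exact hw ⟨w, h, hne⟩
    · rintro rfl
      exact hybe'

theorem exists_cols (c : Fin 3) : ∃ a b : Fin 3, a ≠ b ∧ a ≠ c ∧ b ≠ c := by
  revert c; decide

/-- case B: the point `o` has no other neighbours -/
theorem caseB (h1 : ST_R1) (hS : S.Cls) (ih : ∀ S' : RS A B, S'.R.card < S.R.card → S'.Cls → S'.Colb)
    {x y z o : A} {T : B} (hT : S.Tok T) (hpt : S.pt T = {x, y, z}) (xy : x ≠ y) (xz : x ≠ z)
    (yz : y ≠ z) (hD : ∀ u ∈ S.pt T, u ∉ S.D) (hox : o ≠ x) (hoy : o ≠ y) (hoz : o ≠ z) (hoR : o ∈ S.R)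
    (hy : ∀ b, y ∈ S.pt b → b ≠ T → ¬ S.Tok b ∧ ∀ u ∈ S.pt b, u = y ∨ u = o)
    (hz : ∀ b, z ∈ S.pt b → b ≠ T → ¬ S.Tok b ∧ ∀ u ∈ S.pt b, u = z ∨ u = o)
    (ho : ∀ b, o ∈ S.pt b → ¬ S.Tok b ∧ ∀ u ∈ S.pt b, u = y ∨ u = z ∨ u = o) : S.Colb := by
  have hyT : y ∈ S.pt T := by rw [hpt]; simp
  have hzT : z ∈ S.pt T := by rw [hpt]; simp
  have hxT : x ∈ S.pt T := by rw [hpt]; simp
  have hcls : (S.rm {y, z, o}).Cls := by
    refine h1 A B S {y, z, o} hS ?_
    rintro b hb ⟨u, hu, huD⟩ ⟨v, hv, hvO⟩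
    exfalso
    rw [mem_insert, mem_insert, mem_singleton] at hvO
    rcases hvO with rfl | rfl | rfl
    · by_cases hbT : b = T
      · subst hbT; exact hD u hu huD
      · exact (hy b hv hbT).1 hb
    · by_cases hbT : b = T
      · subst hbT; exact hD u hu huD
      · exact (hz b hv hbT).1 hb
    · exact (ho b hv).1 hb
  have hcard : (S.rm {y, z, o}).R.card < S.R.card := by
    refine card_lt_card ?_
    refine ⟨fun v hv => (mem_sdiff.1 hv).1, fun h => ?_⟩
    have := h hoR
    have h2 := (mem_sdiff.1 this).2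
    simp at h2
  obtain ⟨f, hf1, hf2⟩ := ih _ hcard hcls
  have mpt : ∀ (v : A) (b : B), v ∈ (S.rm {y, z, o}).pt b ↔ v ∈ S.pt b ∧ ¬ (v = y ∨ v = z ∨ v = o) := by
    intro v b
    rw [mem_pt, mem_pt]
    show v ∈ S.R \ {y, z, o} ∧ b ∈ S.bl v ↔ _
    rw [mem_sdiff, mem_insert, mem_insert, mem_singleton]
    tauto
  have hsub : ∀ b, (S.rm {y, z, o}).pt b ⊆ S.pt b := fun b v hv => ((mpt v b).1 hv).1
  have htok : ∀ b, (S.rm {y, z, o}).Tok b → S.Tok b := by
    intro b hb
    have h2 := card_le_card (hsub b)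
    have h3 : ((S.rm {y, z, o}).pt b).card = 3 := hb
    have h4 := hS.pt3 b
    show (S.pt b).card = 3
    omega
  have hxO : ¬ (x = y ∨ x = z ∨ x = o) := by
    rintro (h | h | h)
    · exact xy h
    · exact xz h
    · exact hox h.symm
  have hxc : ∀ b b', x ∈ S.pt b → x ∈ S.pt b' → f x b = f x b' := by
    have hTx : (S.rm {y, z, o}).pt T = {x} := by
      ext v
      rw [mpt, hpt, mem_insert, mem_insert, mem_singleton, mem_singleton]
      constructor
      · rintro ⟨h, h'⟩
        tauto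
      · rintro rfl
        exact ⟨Or.inl rfl, hxO⟩
    have hnt : ∀ b, x ∈ S.pt b → ¬ (S.rm {y, z, o}).Tok b := by
      intro b hb ht
      by_cases hbT : b = T
      · subst hbT
        have h3 : ((S.rm {y, z, o}).pt b).card = 3 := ht
        rw [hTx, card_singleton] at h3
        omega
      · exact (two hS hT hxT hb hbT).1 (htok b ht)
    intro b b' hb hb'
    exact hf2 x T hTx b b' ((mpt x b).2 ⟨hb, hxO⟩) ((mpt x b').2 ⟨hb', hxO⟩) (hnt b hb) (hnt b' hb')
  obtain ⟨p, q, hpq, hpc, hqc⟩ := exists_cols (f x T)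
  let g : A → B → Fin 3 := fun v b => if v = y then p else if v = z then q else if v = o then f x T else f v b
  have gy : ∀ b, g y b = p := fun b => if_pos rfl
  have gz : ∀ b, g z b = q := fun b => by
    show (if z = y then p else if z = z then q else if z = o then f x T else f z b) = q
    rw [if_neg yz.symm, if_pos rfl]
  have go : ∀ b, g o b = f x T := fun b => by
    show (if o = y then p else if o = z then q else if o = o then f x T else f o b) = f x T
    rw [if_neg hoy, if_neg hoz, if_pos rfl]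
  have gn : ∀ v b, ¬ (v = y ∨ v = z ∨ v = o) → g v b = f v b := fun v b h => by
    show (if v = y then p else if v = z then q else if v = o then f x T else f v b) = f v b
    rw [if_neg fun h' => h (Or.inl h'), if_neg fun h' => h (Or.inr (Or.inl h')),
      if_neg fun h' => h (Or.inr (Or.inr h'))]
  have gx : ∀ b, x ∈ S.pt b → g x b = f x T := fun b hb => by
    rw [gn x b hxO]; exact hxc b T hb hxT
  -- the neighbours of the deleted points
  have key : ∀ u v b, u ≠ v → u ∈ S.pt b → v ∈ S.pt b → (u = y ∨ u = z ∨ u = o) →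
      (v = y ∨ v = z ∨ v = o) ∨ (v = x ∧ b = T ∧ (u = y ∨ u = z)) := by
    intro u v b huv hu hv hO
    rcases hO with rfl | rfl | rfl
    · by_cases hbT : b = T
      · subst hbT
        rw [hpt, mem_insert, mem_insert, mem_singleton] at hv
        rcases hv with h | h | h
        · exact Or.inr ⟨h, rfl, Or.inl rfl⟩
        · exact Or.inl (Or.inl h)
        · exact Or.inl (Or.inr (Or.inl h))
      · rcases (hy b hu hbT).2 v hv with h | h
        · exact Or.inl (Or.inl h)
        · exact Or.inl (Or.inr (Or.inr h))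
    · by_cases hbT : b = T
      · subst hbT
        rw [hpt, mem_insert, mem_insert, mem_singleton] at hv
        rcases hv with h | h | h
        · exact Or.inr ⟨h, rfl, Or.inr rfl⟩
        · exact Or.inl (Or.inl h)
        · exact Or.inl (Or.inr (Or.inl h))
      · rcases (hz b hu hbT).2 v hv with h | h
        · exact Or.inl (Or.inr (Or.inl h))
        · exact Or.inl (Or.inr (Or.inr h))
    · exact Or.inl ((ho b hu).2 v hv)
  have val : ∀ u v b b', u ≠ v → (u = y ∨ u = z ∨ u = o) → (v = y ∨ v = z ∨ v = o) → g u b ≠ g v b' := by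
    intro u v b b' huv hu hv
    rcases hu with rfl | rfl | rfl <;> rcases hv with rfl | rfl | rfl
    · exact absurd rfl huv
    · rw [gy, gz]; exact hpq
    · rw [gy, go]; exact hpc
    · rw [gy, gz]; exact hpq.symm
    · exact absurd rfl huv
    · rw [gz, go]; exact hqc
    · rw [gy, go]; exact hpc.symm
    · rw [gz, go]; exact hqc.symm
    · exact absurd rfl huv
  refine ⟨g, ?_, ?_⟩
  · intro u v b b' huv hbb hu hv hv' hdu hdv
    by_cases hO : u = y ∨ u = z ∨ u = o
    · rcases key u v b huv hu hv hO with h | ⟨rfl, _, h⟩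
      · exact val u v b b' huv hO h
      · rw [gx b' hv']
        rcases h with rfl | rfl
        · rw [gy]; exact hpc
        · rw [gz]; exact hqc
    · by_cases hO' : v = y ∨ v = z ∨ v = o
      · rcases key v u b huv.symm hv hu hO' with h | ⟨rfl, _, h⟩
        · exact absurd h hO
        · rw [gx b hu]
          rcases h with rfl | rfl
          · rw [gy]; exact hpc.symm
          · rw [gz]; exact hqc.symm
      · rw [gn u b hO, gn v b' hO']
        exact hf1 u v b b' huv hbb ((mpt u b).2 ⟨hu, hO⟩) ((mpt v b).2 ⟨hv, hO'⟩) ((mpt v b').2 ⟨hv', hO'⟩)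
          (fun h => hdu ⟨h.1, htok b h.2⟩) (fun h => hdv ⟨h.1, htok b' h.2⟩)
  · intro v c hvc b b' hb hb' ht ht'
    by_cases hO : v = y ∨ v = z ∨ v = o
    · rcases hO with rfl | rfl | rfl
      · rw [gy, gy]
      · rw [gz, gz]
      · rw [go, go]
    · rw [gn v b hO, gn v b' hO]
      refine hf2 v c ?_ b b' ((mpt v b).2 ⟨hb, hO⟩) ((mpt v b').2 ⟨hb', hO⟩) (fun h => ht (htok b h))
        (fun h => ht' (htok b' h))
      ext w
      rw [mpt, hvc, mem_singleton]
      constructor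
      · exact fun h => h.1
      · rintro rfl
        exact ⟨rfl, hO⟩

/-- case 2: a token with an outer common neighbour -/
theorem case2 (h1 : ST_R1) (h2 : ST_R2) (h3 : ST_R3) (hS : S.Cls)
    (ih : ∀ S' : RS A B, S'.R.card < S.R.card → S'.Cls → S'.Colb) (hK : ¬ ∃ a b c d, S.K4 a b c d)
    {x y z o : A} {T : B} (hT : S.Tok T) (hpt : S.pt T = {x, y, z}) (xy : x ≠ y) (xz : x ≠ z)
    (yz : y ≠ z) (hD : ∀ u ∈ S.pt T, u ∉ S.D) (hd3 : ∀ u ∈ S.pt T, u ≠ x → S.deg u ≤ 3) (h4 : 3 < S.deg x)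
    (hox : o ≠ x) (hyo : S.adj y o) (hzo : S.adj z o) : S.Colb := by
  have hyT : y ∈ S.pt T := by rw [hpt]; simp
  have hzT : z ∈ S.pt T := by rw [hpt]; simp
  have hxT : x ∈ S.pt T := by rw [hpt]; simp
  have hoy : o ≠ y := hyo.1.symm
  have hoz : o ≠ z := hzo.1.symm
  obtain ⟨be, be', hbly, hbe, hbe', n1, n2, n3⟩ := third hS hT hpt xy xz yz hD hd3 h4 hox hyo hzo
  have hpt2 : S.pt T = {x, z, y} := by rw [hpt, pair_comm]
  obtain ⟨ga, ga', hblz, hga, hga', m1, m2, m3⟩ := third hS hT hpt2 xz xy yz.symm hD hd3 h4 hox hzo hyo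
  have hobe : o ∈ S.pt be := by rw [hbe]; simp
  have hoga : o ∈ S.pt ga := by rw [hga]; simp
  have hoR : o ∈ S.R := (mem_pt.1 hobe).1
  have hnxo : ¬ S.adj x o := by
    intro h
    refine hK ⟨x, y, z, o, (mem_pt.1 hxT).1, (mem_pt.1 hyT).1, (mem_pt.1 hzT).1, hoR, ?_, ?_, h, ?_, hyo, hzo⟩
    · exact adj_of xy hxT hyT fun h => hD x hxT h.1
    · exact adj_of xz hxT hzT fun h => hD x hxT h.1
    · exact adj_of yz hyT hzT fun h => hD y hyT h.1
  have hbg : be ≠ ga := by
    rintro rfl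
    have : y ∈ S.pt be := by rw [hbe]; simp
    rw [hga, mem_insert, mem_singleton] at this
    rcases this with h | h
    · exact yz h
    · exact hoy h.symm
  -- description of the blocks of the two points
  have hbv : ∀ b, y ∈ S.pt b → b ≠ T → ¬ S.Tok b ∧ ∀ u ∈ S.pt b, u = y ∨ u = o := by
    intro b hb hbT
    refine ⟨(two hS hT hyT hb hbT).1, ?_⟩
    have hb2 : b ∈ S.bl y := (mem_pt.1 hb).2
    rw [hbly, mem_insert, mem_insert, mem_singleton] at hb2
    rcases hb2 with h | rfl | rfl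
    · exact absurd h hbT
    · intro u hu
      rwa [hbe, mem_insert, mem_singleton] at hu
    · intro u hu
      rcases hbe' with h | h
      · rw [h, mem_singleton] at hu
        exact Or.inl hu
      · rwa [h, mem_insert, mem_singleton] at hu
  have hgv : ∀ b, z ∈ S.pt b → b ≠ T → ¬ S.Tok b ∧ ∀ u ∈ S.pt b, u = z ∨ u = o := by
    intro b hb hbT
    refine ⟨(two hS hT hzT hb hbT).1, ?_⟩
    have hb2 : b ∈ S.bl z := (mem_pt.1 hb).2
    rw [hblz, mem_insert, mem_insert, mem_singleton] at hb2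
    rcases hb2 with h | rfl | rfl
    · exact absurd h hbT
    · intro u hu
      rwa [hga, mem_insert, mem_singleton] at hu
    · intro u hu
      rcases hga' with h | h
      · rw [h, mem_singleton] at hu
        exact Or.inl hu
      · rwa [h, mem_insert, mem_singleton] at hu
  obtain ⟨de, d1, d2, hblo⟩ := third_el (hS.bl3 o hoR) (mem_pt.1 hobe).2 (mem_pt.1 hoga).2 hbg
  by_cases hA : S.pt be' = {y} ∧ S.pt ga' = {z}
  · -- the diamond
    obtain ⟨b1, b2, hblx⟩ := split_el (hS.bl3 x (mem_pt.1 hxT).1) (mem_pt.1 hxT).2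
    have hdia : S.Dia x y z o T b1 b2 be be' ga ga' de :=
      { hT := hpt, xy := xy, xz := xz, yz := yz, xo := hox.symm, yo := hoy.symm, zo := hoz.symm, oR := hoR
        hD := ⟨hD x hxT, hD y hyT, hD z hzT⟩
        hx := hblx, hy := hbly, hz := hblz, ho := hblo, hbe := hbe, hbe' := hA.1, hga := hga, hga' := hA.2
        hdx := fun h => hnxo (adj_of hox.symm h (mem_pt.2 ⟨hoR, by rw [hblo]; simp⟩) fun h' => hD x hxT h'.1)
        hdeg := le_antisymm (hS.deg4 x (mem_pt.1 hxT).1) h4 }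
    refine h3 A B S x y z o T b1 b2 be be' ga ga' de hS hdia (ih _ ?_ (h2 A B S x y z o T b1 b2 be be' ga ga' de hS hdia))
    refine card_lt_card ?_
    refine ⟨fun v hv => (mem_sdiff.1 hv).1, fun h => ?_⟩
    have h5 := (mem_sdiff.1 (h hoR)).2
    simp at h5
  · -- the point o has no other neighbour
    refine caseB h1 hS ih hT hpt xy xz yz hD hox hoy hoz hoR hbv hgv ?_
    have hor : S.pt be' = {y, o} ∨ S.pt ga' = {z, o} := by
      rcases hbe' with h | h
      · rcases hga' with h' | h'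
        · exact absurd ⟨h, h'⟩ hA
        · exact Or.inr h'
      · exact Or.inl h
    have hde : de = be' ∨ de = ga' := by
      rcases hor with h | h
      · left
        have h5 : be' ∈ S.bl o := (mem_pt.1 (show o ∈ S.pt be' by rw [h]; simp)).2
        rw [hblo, mem_insert, mem_insert, mem_singleton] at h5
        rcases h5 with h6 | h6 | h6
        · exact absurd h6 n3
        · exfalso
          have h7 : y ∈ S.pt ga := by rw [← h6, h]; simp
          rw [hga, mem_insert, mem_singleton] at h7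
          rcases h7 with h8 | h8
          · exact yz h8
          · exact hoy h8.symm
        · exact h6.symm
      · right
        have h5 : ga' ∈ S.bl o := (mem_pt.1 (show o ∈ S.pt ga' by rw [h]; simp)).2
        rw [hblo, mem_insert, mem_insert, mem_singleton] at h5
        rcases h5 with h6 | h6 | h6
        · exfalso
          have h7 : z ∈ S.pt be := by rw [← h6, h]; simp
          rw [hbe, mem_insert, mem_singleton] at h7
          rcases h7 with h8 | h8
          · exact yz h8.symm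
          · exact hoz h8.symm
        · exact absurd h6 m3
        · exact h6.symm
    have hyb : ∀ b, y ∈ S.pt b → b ≠ T → ¬ S.Tok b ∧ ∀ u ∈ S.pt b, u = y ∨ u = z ∨ u = o := fun b hb hb' =>
      ⟨(hbv b hb hb').1, fun u hu => ((hbv b hb hb').2 u hu).imp_right Or.inr⟩
    have hzb : ∀ b, z ∈ S.pt b → b ≠ T → ¬ S.Tok b ∧ ∀ u ∈ S.pt b, u = y ∨ u = z ∨ u = o := fun b hb hb' =>
      ⟨(hgv b hb hb').1, fun u hu => Or.inr ((hgv b hb hb').2 u hu)⟩
    intro b hb
    have hb2 : b ∈ S.bl o := (mem_pt.1 hb).2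
    rw [hblo, mem_insert, mem_insert, mem_singleton] at hb2
    rcases hb2 with rfl | rfl | rfl
    · exact hyb _ (by rw [hbe]; simp) n1
    · exact hzb _ (by rw [hga]; simp) m1
    · rcases hde with rfl | rfl
      · refine hyb _ (mem_pt.2 ⟨(mem_pt.1 hyT).1, ?_⟩) n2
        rw [hbly]; simp
      · refine hzb _ (mem_pt.2 ⟨(mem_pt.1 hzT).1, ?_⟩) m2
        rw [hblz]; simp

/-- case 3: no token has an outer common neighbour, no four adjacent points -/
theorem case3 (hV : ST_VL) (hS : S.Cls) (hK : ¬ ∃ a b c d, S.K4 a b c d)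
    (hN : ∀ x T y z o, S.Tok T → S.pt T = {x, y, z} → x ≠ y → x ≠ z → y ≠ z → (∀ u ∈ S.pt T, u ∉ S.D) →
      (∀ u ∈ S.pt T, u ≠ x → S.deg u ≤ 3) → 3 < S.deg x → S.adj y o → S.adj z o → o = x) : S.Colb := by
  have hex : ∀ x : A, ∃ y z : A, x ∈ S.R → 3 < S.deg x → ∃ T, S.Tok T ∧ S.pt T = {x, y, z} ∧ x ≠ y ∧ x ≠ z ∧ y ≠ z ∧
      (∀ u ∈ S.pt T, u ∉ S.D) ∧ ∀ u ∈ S.pt T, u ≠ x → S.deg u ≤ 3 := by
    intro x
    by_cases h : x ∈ S.R ∧ 3 < S.deg x
    · obtain ⟨T, hxT, hT, hD, h3⟩ := hS.deg3 x h.1 h.2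
      obtain ⟨y, z, hyz⟩ := split_el hT hxT
      refine ⟨y, z, fun _ _ => ⟨T, hT, hyz, ?_, ?_, ?_, hD, h3⟩⟩
      · rintro rfl
        have h5 : (S.pt T).card = 3 := hT
        have h6 : (S.pt T).card ≤ 2 := by
          rw [hyz, insert_idem]
          exact card_le_two
        omega
      · rintro rfl
        have h5 : (S.pt T).card = 3 := hT
        have h6 : (S.pt T).card ≤ 2 := by
          rw [hyz, pair_comm, insert_idem]
          exact card_le_two
        omega
      · rintro rfl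
        have h5 : (S.pt T).card = 3 := hT
        have h6 : (S.pt T).card ≤ 2 := by
          rw [hyz, pair_eq_singleton]
          exact card_le_two
        omega
    · exact ⟨x, x, fun h1 h2 => absurd ⟨h1, h2⟩ h⟩
  choose yf zf hyz using hex
  obtain ⟨c, hc⟩ := hV A S.R S.adj (S.R.filter fun v => 3 < S.deg v) yf zf (fun u v h => adj_symm h)
    (fun u h => h.1 rfl) (filter_subset _ _) (by
      intro x hx
      rw [mem_filter] at hx
      obtain ⟨T, hT, hpt, xy, xz, yz, hD, h3⟩ := hyz x hx.1 hx.2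
      have hyT : yf x ∈ S.pt T := by rw [hpt]; simp
      have hzT : zf x ∈ S.pt T := by rw [hpt]; simp
      have hxT : x ∈ S.pt T := by rw [hpt]; simp
      refine ⟨(mem_pt.1 hyT).1, (mem_pt.1 hzT).1, ?_, ?_, adj_of xy hxT hyT fun h => hD x hxT h.1,
        adj_of xz hxT hzT fun h => hD x hxT h.1, adj_of yz hyT hzT fun h => hD _ hyT h.1⟩
      · intro h
        have h5 := (mem_filter.1 h).2
        have h6 := h3 _ hyT xy.symm
        omega
      · intro h
        have h5 := (mem_filter.1 h).2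
        have h6 := h3 _ hzT xz.symm
        omega) (by
      intro x hx x' hx' hne
      rw [mem_filter] at hx hx'
      obtain ⟨T, hT, hpt, xy, xz, yz, hD, h3⟩ := hyz x hx.1 hx.2
      obtain ⟨T', hT', hpt', xy', xz', yz', hD', h3'⟩ := hyz x' hx'.1 hx'.2
      have key : ∀ w, w ∈ S.pt T → w ∈ S.pt T' → False := by
        intro w hw hw'
        have h5 : T = T' := hS.tokd w T T' hw hw' hT hT'
        subst h5
        have h6 : x' ∈ S.pt T := by rw [hpt']; simp
        have h7 := h3 x' h6 (Ne.symm hne)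
        omega
      have hyT : yf x ∈ S.pt T := by rw [hpt]; simp
      have hzT : zf x ∈ S.pt T := by rw [hpt]; simp
      have hyT' : yf x' ∈ S.pt T' := by rw [hpt']; simp
      have hzT' : zf x' ∈ S.pt T' := by rw [hpt']; simp
      exact ⟨fun h => key _ hyT (h ▸ hyT'), fun h => key _ hyT (h ▸ hzT'), fun h => key _ hzT (h ▸ hzT')⟩)
    (fun x hx => hS.deg4 x (mem_filter.1 hx).1)
    (fun v hv hvX => by
      by_contra h
      exact hvX (mem_filter.2 ⟨hv, not_le.1 h⟩))
    (by
      intro x hx o ho h1 h2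
      rw [mem_filter] at hx
      obtain ⟨T, hT, hpt, xy, xz, yz, hD, h3⟩ := hyz x hx.1 hx.2
      exact hN x T (yf x) (zf x) o hT hpt xy xz yz hD h3 hx.2 h1 h2)
    (by
      rintro ⟨a, ha, b, hb, c, hc, d, hd, h1, h2, h3, h4, h5, h6⟩
      exact hK ⟨a, b, c, d, ha, hb, hc, hd, h1, h2, h3, h4, h5, h6⟩)
  refine ⟨fun v _ => c v, ?_, fun v _ _ b b' _ _ _ _ => rfl⟩
  intro u v b b' huv _ hu hv _ hdu _
  exact hc u (mem_pt.1 hu).1 v (mem_pt.1 hv).1 (adj_of huv hu hv hdu)

/-- the R-lemma -/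
theorem r5 : ST_VL → ST_R1 → ST_R2 → ST_R3 → ST_R4 → ST_R := by
  intro hV h1 h2 h3 h4 A B
  suffices h : ∀ (n : ℕ) (S : RS A B), S.R.card = n → S.Cls → S.Colb from fun S hS => h _ S rfl hS
  intro n
  induction n using Nat.strong_induction_on with
  | _ n ihn =>
    intro S hn hS
    have ih : ∀ S' : RS A B, S'.R.card < S.R.card → S'.Cls → S'.Colb := fun S' h hc =>
      ihn _ (by rw [← hn]; exact h) S' rfl hc
    by_cases hK : ∃ a b c d, S.K4 a b c d
    · obtain ⟨a, b, c, d, hK⟩ := hK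
      obtain ⟨hc, hl⟩ := h4 A B S a b c d hS hK
      refine hl (ih _ ?_ hc)
      refine card_lt_card ?_
      refine ⟨fun v hv => (mem_sdiff.1 hv).1, fun h => ?_⟩
      have h5 := (mem_sdiff.1 (h hK.1)).2
      simp at h5
    · by_cases hN : ∃ x T y z o, S.Tok T ∧ S.pt T = {x, y, z} ∧ x ≠ y ∧ x ≠ z ∧ y ≠ z ∧ (∀ u ∈ S.pt T, u ∉ S.D) ∧
          (∀ u ∈ S.pt T, u ≠ x → S.deg u ≤ 3) ∧ 3 < S.deg x ∧ S.adj y o ∧ S.adj z o ∧ o ≠ x
      · obtain ⟨x, T, y, z, o, hT, hpt, xy, xz, yz, hD, hd3, hdx, hyo, hzo, hox⟩ := hN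
        exact case2 h1 h2 h3 hS ih hK hT hpt xy xz yz hD hd3 hdx hox hyo hzo
      · refine case3 hV hS hK ?_
        intro x T y z o hT hpt xy xz yz hD hd3 hdx hyo hzo
        by_contra hox
        exact hN ⟨x, T, y, z, o, hT, hpt, xy, xz, yz, hD, hd3, hdx, hyo, hzo, hox⟩

end Pool.Agent.Helper69.InjR
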