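import Mathlib
import Pool.Agent.Helper65.Inj.JDefs

/-! J part of MP_25cd9d_co: components which are not attached to `v` are not changed by a rotation. -/

set_option autoImplicit false

namespace Pool.Agent.Helper69.Inj

open Classical Pool.Agent.Helper65.Inj Pool.Agent.Helper65.Inj.Cub

theorem adj_symm {A B : Type} {H : Cub A B} {J : Finset A} {u v : A} (h : H.Adj J u v) : H.Adj J v u := by
  obtain ⟨b, hb⟩ := h
  exact ⟨b, hb.symm⟩

theorem rc_symm {A B : Type} {H : Cub A B} {J : Finset A} {u v : A} (h : H.Rc J u v) : H.Rc J v u := by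
  induction h with
  | refl => exact Relation.ReflTransGen.refl
  | tail _ h2 ih => exact ih.head (adj_symm h2)

theorem rc_mem {A B : Type} {H : Cub A B} {J : Finset A} {u v : A} (h : H.Rc J u v) (hu : u ∈ J) : v ∈ J := by
  induction h with
  | refl => exact hu
  | tail _ h2 _ =>
    obtain ⟨b, hb⟩ := h2
    exact hb.2.2.2.2.1

theorem st_Fr (hOR : ST_OR) : ST_Fr := by
  intro A B _ _ H J v w j k T b c hO hO' hw hx hjw hnt
  have hjk : H.Rc J j k := hOR A B H J j k hO hx.hj.2.1 fun s hs => hx.opp hO hs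
  have hvJ : v ∉ J := hx.nJ
  have hm : ∀ r, r ∈ (J \ {w}) ∪ {v} ↔ (r ∈ J ∧ r ≠ w ∨ r = v) := by
    intro r
    simp only [Finset.mem_union, Finset.mem_sdiff, Finset.mem_singleton]
  generalize hJ' : (J \ {w}) ∪ {v} = J' at *
  have hwv : w ≠ v := fun e => hvJ (e ▸ hw)
  -- the blocks of the untouched component
  have key : ∀ a, a ∈ J → ¬ H.Rc J a j → ∀ r, a ∈ H.pt r → v ∉ H.pt r ∧ w ∉ H.pt r := by
    intro a ha hn r hr
    constructor
    · intro hv
      rcases hx.all hv with e | e | e
      · subst e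
        exact hx.hT a hr ha
      · subst e
        have e1 := hx.hj.2.2 a hr ha
        subst e1
        exact hn Relation.ReflTransGen.refl
      · subst e
        have e1 := hx.hk.2.2 a hr ha
        subst e1
        exact hn (rc_symm hjk)
    · intro hwr
      rcases tr_cases_mem hwr hw with h | ⟨x, h⟩ | h
      · have e1 := h.2.2 a hr ha
        subst e1
        exact hn (rc_symm hjw)
      · rcases h.2.2.2.2.2 a hr ha with e | e
        · subst e
          exact hn (rc_symm hjw)
        · subst e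
          have h1 : H.Adj J a w := ⟨r, h.symm⟩
          exact hn ((Relation.ReflTransGen.single h1).trans (rc_symm hjw))
      · exact hnt r (mem_bl.2 hwr) h
  have same : ∀ a, a ∈ J → ¬ H.Rc J a j → ∀ r, a ∈ H.pt r → ∀ u ∈ H.pt r, (u ∈ J ↔ u ∈ J') := by
    intro a ha hn r hr u hu
    obtain ⟨h1, h2⟩ := key a ha hn r hr
    rw [hm]
    constructor
    · intro h
      exact Or.inl ⟨h, fun e => h2 (e ▸ hu)⟩
    · rintro (h | h)
      · exact h.1
      · exact absurd (h ▸ hu) h1
  have adj : ∀ a, a ∈ J → ¬ H.Rc J a j → ∀ u, H.Adj J a u ↔ H.Adj J' a u := by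
    intro a ha hn u
    constructor
    · rintro ⟨r, h1, h2, h3, h4, h5, h6⟩
      have hs := same a ha hn r h2
      exact ⟨r, h1, h2, h3, (hs a h2).1 h4, (hs u h3).1 h5, fun x hx hxJ => h6 x hx ((hs x hx).2 hxJ)⟩
    · rintro ⟨r, h1, h2, h3, h4, h5, h6⟩
      have hs := same a ha hn r h2
      exact ⟨r, h1, h2, h3, (hs a h2).2 h4, (hs u h3).2 h5, fun x hx hxJ => h6 x hx ((hs x hx).1 hxJ)⟩
  intro a ha hn
  refine ⟨?_, same a ha hn, fun u => ⟨fun h => ?_, fun h => ?_⟩⟩
  · rw [hm]
    refine Or.inl ⟨ha, ?_⟩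
    rintro rfl
    exact hn (rc_symm hjw)
  · induction h with
    | refl => exact Relation.ReflTransGen.refl
    | tail h1 h2 ih =>
      refine ih.tail ((adj _ (rc_mem h1 ha) ?_ _).1 h2)
      intro h3
      exact hn (h1.trans h3)
  · have h' : H.Rc J a u ∧ u ∈ J := by
      induction h with
      | refl => exact ⟨Relation.ReflTransGen.refl, ha⟩
      | tail h1 h2 ih =>
        have hn' : ¬ H.Rc J _ j := fun h3 => hn (ih.1.trans h3)
        have h4 := (adj _ ih.2 hn' _).2 h2
        exact ⟨ih.1.tail h4, rc_mem (Relation.ReflTransGen.single h4) ih.2⟩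
    exact h'.1

end Pool.Agent.Helper69.Inj
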