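import Mathlib
import Pool.Agent.Helper65.Inj.JDefs

/-! J part of MP_25cd9d_co: rotations at an end of a component and at its neighbour. -/

set_option autoImplicit false

namespace Pool.Agent.Helper69.Inj

open Classical Pool.Agent.Helper65.Inj Pool.Agent.Helper65.Inj.Cub

theorem st_Rot1 : ST_Rot1 := by
  intro A B _ _ H J v j k p T b c D F hO hx hl
  obtain ⟨⟨s, hs⟩, hI⟩ := hO.1
  have hop := hx.opp hO hs
  have hne := hx.ne hO
  have hn1 := hx.nt1 hO
  have hn2 := hx.nt2 hO
  have hvJ := hx.nJ
  have hjJ := hx.hj.2.1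
  have hkJ := hx.hk.2.1
  have hvj : v ≠ j := fun e => hvJ (e ▸ hjJ)
  have hvk : v ≠ k := fun e => hvJ (e ▸ hkJ)
  have hEx : Ex H J {v} {j} {F} {T} (fun a => if a = v then s j else s a) := by
    refine ⟨by simpa using hvJ, by simpa using hjJ, ?_, ?_, ?_, ?_⟩
    · intro a ha r har u hu hu' hua
      rw [Finset.mem_singleton] at ha
      subst ha
      simp only [Finset.mem_singleton] at hu'
      rcases hu' with hu' | hu'
      swap
      · exact absurd hu' hua
      rcases hx.all har with e | e | e
      · subst e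
        exact absurd hu'.1 (hx.hT u hu)
      · subst e
        exact absurd (hx.hj.2.2 u hu hu'.1) hu'.2
      · subst e
        have e1 := hx.hk.2.2 u hu hu'.1
        subst e1
        refine ⟨?_, ?_, fun _ => hn2⟩
        · intro w hw hw'
          simp only [Finset.mem_singleton] at hw'
          rcases hw' with hw' | hw'
          · exact Or.inl (hx.hk.2.2 w hw hw'.1)
          · exact Or.inr hw'
        · simp only [hua, if_false, if_true]
          exact hop.symm
    · refine hc_s hs (by simpa using hn1) (by simpa using hvJ) ?_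
      intro a ha _
      have : a ≠ v := fun e => hvJ (e ▸ ha)
      simp only [this, if_false]
    · intro a ha r har
      rw [Finset.mem_singleton] at ha
      subst ha
      simp only [Finset.mem_singleton]
      rcases hl.all har with e | e | e
      · subst e
        exact Or.inl ⟨v, hx.vb, Or.inr rfl⟩
      · subst e
        exact Or.inl ⟨p, hl.hD.2.2.1, Or.inl ⟨hl.hD.2.2.2.2.1, hl.hD.1.symm⟩⟩
      · exact Or.inr e
    · intro a ha
      rw [Finset.mem_singleton] at ha
      subst ha
      exact ⟨hx.hT, v, hx.vT, by simp⟩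
  obtain ⟨h0, h1, h2, h3, h4⟩ := hEx.res hI
  simp only [Finset.card_singleton] at h3 h4
  have hO' : H.Opt ((J \ {j}) ∪ {v}) := hO.opt h1 (by omega) (n3_le h2) (by omega)
  have hm : ∀ r, r ∈ (J \ {j}) ∪ {v} ↔ (r ∈ J ∧ r ≠ j ∨ r = v) := by
    intro r
    simp only [Finset.mem_union, Finset.mem_sdiff, Finset.mem_singleton]
  refine ⟨hO', ?_⟩
  generalize (J \ {j}) ∪ {v} = J' at hO' hm
  have hvF := hx.notF hO hl
  refine ⟨hl.hF.1, hx.hj.1, hl.hD.2.1, hl.bD, ?_, ?_, ?_⟩
  · intro u hu huJ
    rcases (hm u).1 huJ with h | h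
    · exact h.2 (hl.hF.2.2 u hu h.1)
    · exact hvF (h ▸ hu)
  · refine ⟨hx.vb, (hm v).2 (Or.inr rfl), fun u hu huJ => ?_⟩
    rcases (hm u).1 huJ with h | h
    · exact absurd (hx.hj.2.2 u hu h.1) h.2
    · exact h
  · refine ⟨hl.hD.2.2.1, (hm p).2 (Or.inl ⟨hl.hD.2.2.2.2.1, hl.hD.1.symm⟩), fun u hu huJ => ?_⟩
    rcases (hm u).1 huJ with h | h
    · rcases hl.hD.2.2.2.2.2 u hu h.1 with e | e
      · exact absurd e h.2
      · exact e
    · exfalso
      subst h
      rcases hx.all hu with e | e | e
      · subst e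
        exact hx.hT j hl.hD.2.1 hjJ
      · exact hl.bD e.symm
      · subst e
        exact hne (hx.hk.2.2 j hl.hD.2.1 hjJ)

theorem st_Rot2 : ST_Rot2 := by
  intro A B _ _ H J v j k p T b c D F hO hx hl hLP
  obtain ⟨⟨s, hs⟩, hI⟩ := hO.1
  have hop := hx.opp hO hs
  have hne := hx.ne hO
  have hn1 := hx.nt1 hO
  have hn2 := hx.nt2 hO
  have hvJ := hx.nJ
  have hjJ := hx.hj.2.1
  have hkJ := hx.hk.2.1
  have hvj : v ≠ j := fun e => hvJ (e ▸ hjJ)
  have hvk : v ≠ k := fun e => hvJ (e ▸ hkJ)
  have hpJ : p ∈ J := hl.hD.2.2.2.2.1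
  have hpD : p ∈ H.pt D := hl.hD.2.2.1
  have hjD : j ∈ H.pt D := hl.hD.2.1
  have hjp : j ≠ p := hl.hD.1
  have hvp : v ≠ p := fun e => hvJ (e ▸ hpJ)
  have hpk : p ≠ k := by
    rintro rfl
    exact hLP D ⟨hjD, hpD⟩
  have hnp : H.nt J p := hl.hD.symm.nt hI
  -- the private block of `p`
  obtain ⟨G, hG⟩ := F0 hO hpJ
  have hGD : G ≠ D := by
    rintro rfl
    exact hjp (hG.2.2 j hjD hjJ)
  obtain ⟨D', hGD', hDD', hpD', hpall⟩ := ex_bl2 hG.1 hpD hGD
  -- no other pair block at `j`
  have hjq : ∀ r u, u ∈ H.pt r → u ∈ J → j ∈ H.pt r → u ≠ j → r = D ∧ u = p := by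
    intro r u hu huJ hj huj
    rcases hl.all hj with e | e | e
    · subst e
      exact absurd (hl.hb.2.2 u hu huJ) huj
    · subst e
      refine ⟨rfl, ?_⟩
      rcases hl.hD.2.2.2.2.2 u hu huJ with e | e
      · exact absurd e huj
      · exact e
    · subst e
      exact absurd (hl.hF.2.2 u hu huJ) huj
  obtain ⟨q, hQ⟩ : ∃ q, H.Q J D' p q := by
    rcases tr_cases_mem hpD' hpJ with h | h | h
    · exfalso
      have hval : H.Val J (fun a => if a = j ∨ a = p then !(s a) else s a) := by
        intro r u w hr
        have hpq : ∀ u w, H.Q J r u w → u = p → w = j := by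
          intro u w hr e
          subst e
          rcases hpall r hr.2.1 with e | e | e
          · subst e
            exact absurd (hG.2.2 w hr.2.2.1 hr.2.2.2.2.1).symm hr.1
          · subst e
            rcases hl.hD.2.2.2.2.2 w hr.2.2.1 hr.2.2.2.2.1 with e | e
            · exact e
            · exact absurd e.symm hr.1
          · subst e
            exact absurd (h.2.2 w hr.2.2.1 hr.2.2.2.2.1).symm hr.1
        have hjq' : ∀ u w, H.Q J r u w → u = j → w = p := by
          intro u w hr e
          subst e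
          exact (hjq r w hr.2.2.1 hr.2.2.2.2.1 hr.2.1 hr.1.symm).2
        have h1 : (u = j ∨ u = p) ↔ (w = j ∨ w = p) := by
          constructor
          · rintro (e | e)
            · exact Or.inr (hjq' u w hr e)
            · exact Or.inl (hpq u w hr e)
          · rintro (e | e)
            · exact Or.inr (hjq' w u hr.symm e)
            · exact Or.inl (hpq w u hr.symm e)
        have h2 := hs r u w hr
        by_cases h3 : u = j ∨ u = p
        · have h4 := h1.1 h3
          simp only [h3, h4, if_true]
          intro h5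
          exact h2 (Bool.not_inj h5)
        · have h4 : ¬ (w = j ∨ w = p) := fun h4 => h3 (h1.2 h4)
          simp only [h3, h4, if_false]
          exact h2
      have h5 := hx.opp hO hval
      have h6 : ¬ (k = j ∨ k = p) := by
        rintro (e | e)
        · exact hne e.symm
        · exact hpk e.symm
      simp only [h6, if_false, true_or, if_true] at h5
      revert hop h5
      cases s j <;> cases s k <;> simp
    · exact h
    · exact absurd h (hnp D' (mem_bl.2 hpD'))
  have hqj : q ≠ j := by
    rintro rfl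
    exact hDD' (hjq D' p hpD' hpJ hQ.2.2.1 hjp.symm).1.symm
  have hqk : q ≠ k := by
    rintro rfl
    have a1 := hs _ _ _ hQ
    have a2 := hs _ _ _ hl.hD
    revert a1 a2 hop
    cases s j <;> cases s q <;> cases s p <;> simp
  have hqJ : q ∈ J := hQ.2.2.2.2.1
  have hEx : Ex H J {v} {p} {G} {T} (fun a => if a = v then s j else if a = j then !(s j) else s a) := by
    refine ⟨by simpa using hvJ, by simpa using hpJ, ?_, ?_, ?_, ?_⟩
    · intro a ha r har u hu hu' hua
      rw [Finset.mem_singleton] at ha
      subst ha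
      simp only [Finset.mem_singleton] at hu'
      rcases hu' with hu' | hu'
      swap
      · exact absurd hu' hua
      rcases hx.all har with e | e | e
      · subst e
        exact absurd hu'.1 (hx.hT u hu)
      · subst e
        have e1 := hx.hj.2.2 u hu hu'.1
        subst e1
        refine ⟨?_, ?_, fun _ => hn1⟩
        · intro w hw hw'
          simp only [Finset.mem_singleton] at hw'
          rcases hw' with hw' | hw'
          · exact Or.inl (hx.hj.2.2 w hw hw'.1)
          · exact Or.inr hw'
        · simp only [hua, if_false, if_true]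
          cases s u <;> simp
      · subst e
        have e1 := hx.hk.2.2 u hu hu'.1
        subst e1
        refine ⟨?_, ?_, fun _ => hn2⟩
        · intro w hw hw'
          simp only [Finset.mem_singleton] at hw'
          rcases hw' with hw' | hw'
          · exact Or.inl (hx.hk.2.2 w hw hw'.1)
          · exact Or.inr hw'
        · simp only [hua, hne.symm, if_false, if_true]
          exact hop.symm
    · intro r u w huw hu hw huJ hwJ hup hwp hr
      rw [Finset.mem_singleton] at hup hwp
      have huj : u ≠ j := by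
        rintro rfl
        exact hwp (hjq r w hw hwJ hu huw.symm).2
      have hwj : w ≠ j := by
        rintro rfl
        exact hup (hjq r u hu huJ hw huw).2
      have huv : u ≠ v := fun e => hvJ (e ▸ huJ)
      have hwv : w ≠ v := fun e => hvJ (e ▸ hwJ)
      simp only [huj, hwj, huv, hwv, if_false]
      exact hc_s (X := {v}) (Y := {p}) hs (by simpa using hnp) (by simpa using hvJ) (fun _ _ _ => rfl) r u w huw hu hw
        huJ hwJ (by simpa using hup) (by simpa using hwp) hr
    · intro a ha r har
      rw [Finset.mem_singleton] at ha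
      subst ha
      simp only [Finset.mem_singleton]
      rcases hpall r har with e | e | e
      · exact Or.inr e
      · subst e
        exact Or.inl ⟨j, hjD, Or.inl ⟨hjJ, hjp⟩⟩
      · subst e
        exact Or.inl ⟨q, hQ.2.2.1, Or.inl ⟨hqJ, hQ.1.symm⟩⟩
    · intro a ha
      rw [Finset.mem_singleton] at ha
      subst ha
      exact ⟨hx.hT, v, hx.vT, by simp⟩
  obtain ⟨h0, h1, h2, h3, h4⟩ := hEx.res hI
  simp only [Finset.card_singleton] at h3 h4
  have hO' : H.Opt ((J \ {p}) ∪ {v}) := hO.opt h1 (by omega) (n3_le h2) (by omega)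
  have hm : ∀ r, r ∈ (J \ {p}) ∪ {v} ↔ (r ∈ J ∧ r ≠ p ∨ r = v) := by
    intro r
    simp only [Finset.mem_union, Finset.mem_sdiff, Finset.mem_singleton]
  refine ⟨D', G, q, hDD', hQ, hG, hqj, hqk, hpk, hO', ?_⟩
  generalize (J \ {p}) ∪ {v} = J' at hO' hm
  refine ⟨hG.1, hpD, hpD', hDD', ?_, ?_, ?_⟩
  · intro u hu huJ
    rcases (hm u).1 huJ with h | h
    · exact h.2 (hG.2.2 u hu h.1)
    · subst h
      rcases hx.all hu with e | e | e
      · subst e
        exact hx.hT.not_P hG
      · subst e
        exact hjp (hG.2.2 j hx.hj.1 hjJ)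
      · subst e
        exact hpk (hG.2.2 k hx.hk.1 hkJ).symm
  · refine ⟨hjD, (hm j).2 (Or.inl ⟨hjJ, hjp⟩), fun u hu huJ => ?_⟩
    rcases (hm u).1 huJ with h | h
    · rcases hl.hD.2.2.2.2.2 u hu h.1 with e | e
      · exact e
      · exact absurd e h.2
    · exfalso
      subst h
      rcases hx.all hu with e | e | e
      · subst e
        exact hx.hT j hjD hjJ
      · exact hl.bD e.symm
      · subst e
        exact hne (hx.hk.2.2 j hjD hjJ)
  · refine ⟨hQ.2.2.1, (hm q).2 (Or.inl ⟨hqJ, hQ.1.symm⟩), fun u hu huJ => ?_⟩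
    rcases (hm u).1 huJ with h | h
    · rcases hQ.2.2.2.2.2 u hu h.1 with e | e
      · exact absurd e h.2
      · exact e
    · exfalso
      subst h
      rcases hx.all hu with e | e | e
      · subst e
        exact hx.hT p hpD' hpJ
      · subst e
        exact hjp (hx.hj.2.2 p hpD' hpJ).symm
      · subst e
        exact hpk (hx.hk.2.2 p hpD' hpJ)

end Pool.Agent.Helper69.Inj
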